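import Pool.Agent.Helper51.TH.Main

/-!
MP_55694c_an: gas at rest with a density of large total variation. The uniform stability of its small
perturbations (global entropy solutions of bounded variation, linear bound for the variation of
velocity and pressure) holds if and only if the bound `V` for the total variation of the logarithm of
the density is less than `2 π`.
-/

open MeasureTheory Set Helper73.EU

namespace Pool.Agent.Results.MP_55694c_an.SharpThreshold

theorem result (γ a b V : ℝ) (hγ : 1 < γ) (ha : 0 < a) (hab : a < b) :
    (Helper51.TH.StableAll γ a b V ↔ V < 2 * Real.pi) ∧
    ∀ T : ℝ, 0 < T → (Helper51.TH.StableOn γ a b V T ↔ V < 2 * Real.pi) :=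
  Helper51.TH.main hγ ha hab

end Pool.Agent.Results.MP_55694c_an.SharpThreshold
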