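import Pool.Agent.Helper73.EU.RFinal

/-!
MP_55694c_an: Q1 and Q2 at the data with two outgoing rarefaction waves and an arbitrary density
between them.
-/

open MeasureTheory Set Helper73.EU
open scoped NNReal

namespace Pool.Agent.Results.MP_55694c_an.ShockFreeClass

theorem result (γ a b v p x₁ x₂ gL gR : ℝ) (g u₀ : ℝ → ℝ) (hγ : 1 < γ) (ha : 0 < a)
    (h : IsShockFreeDatum γ a b v p x₁ x₂ gL gR g u₀) : ∃ r w z : ℝ × ℝ → ℝ,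
    (∀ T, 0 < T → IsSol γ T a b r w z ∧
      Attains T r w z (fun x => swR γ p (g x) |u₀ x - v|) u₀
        (fun x => swE γ p (g x) |u₀ x - v|)) ∧
    (eVariationOn g univ ≠ ⊤ → ∃ C : ℝ≥0, ∀ t : ℝ, 0 < t → eVariationOn (sl r t) univ ≤ C ∧
      eVariationOn (sl w t) univ ≤ C ∧ eVariationOn (sl z t) univ ≤ C) ∧
    (∀ (T a' b' : ℝ) (ρ u e : ℝ × ℝ → ℝ), 0 < T → 0 < a' → IsSol γ T a' b' ρ u e →
      Attains T ρ u e (fun x => swR γ p (g x) |u₀ x - v|) u₀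
        (fun x => swE γ p (g x) |u₀ x - v|) →
      ∀ᵐ ζ : ℝ × ℝ, ζ ∈ Strip T → ρ ζ = r ζ ∧ u ζ = w ζ ∧ e ζ = z ζ) ∧
    ∀ T T' a' b' R ε : ℝ, 0 < T' → T' < T → 0 < a' → 0 < R → 0 < ε →
      ∃ R' δ : ℝ, 0 < R' ∧ 0 < δ ∧ ∀ (ρ u e : ℝ × ℝ → ℝ) (ρ₀' u₀' e₀' : ℝ → ℝ),
        IsSol γ T a' b' ρ u e → IsDatum a' b' ρ₀' u₀' e₀' → Attains T ρ u e ρ₀' u₀' e₀' →
        dist1 R' ρ₀' u₀' e₀' (fun x => swR γ p (g x) |u₀ x - v|) u₀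
          (fun x => swE γ p (g x) |u₀ x - v|) < δ →
        ∀ᵐ t : ℝ, t ∈ Ioo 0 T' →
          dist1 R (sl ρ t) (sl u t) (sl e t) (sl r t) (sl w t) (sl z t) < ε :=
  shockFreeClass γ a b v p x₁ x₂ gL gR g u₀ hγ ha h

end Pool.Agent.Results.MP_55694c_an.ShockFreeClass
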