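import Pool.Agent.Helper73.EU.Main

/-!
MP_55694c_an: solutions of the one dimensional Euler equations with locally Lipschitz velocity and
pressure and arbitrary measurable density are stable among all bounded entropy solutions.
-/

open MeasureTheory Set Helper73.EU

namespace Pool.Agent.Results.MP_55694c_an.Stability

theorem result (γ T a b L : ℝ) (hγ : 1 < γ) (hT : 0 < T) (ha : 0 < a)
    (r w z : ℝ × ℝ → ℝ) (r₀ w₀ z₀ : ℝ → ℝ) (hV : IsBase γ T a b L r w z r₀ w₀ z₀)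
    (R T' ε : ℝ) (hR : 0 < R) (hT' : 0 < T') (hTT : T' < T) (hε : 0 < ε) :
    ∃ R' δ : ℝ, 0 < R' ∧ 0 < δ ∧
      ∀ (ρ u e : ℝ × ℝ → ℝ) (ρ₀ u₀ e₀ : ℝ → ℝ),
        IsSol γ T a b ρ u e → IsDatum a b ρ₀ u₀ e₀ → Attains T ρ u e ρ₀ u₀ e₀ →
        dist1 R' ρ₀ u₀ e₀ r₀ w₀ z₀ < δ →
        ∀ᵐ t : ℝ, t ∈ Ioo 0 T' →
          dist1 R (sl ρ t) (sl u t) (sl e t) (sl r t) (sl w t) (sl z t) < ε :=
  main γ T a b L hγ hT ha r w z r₀ w₀ z₀ hV R T' ε hR hT' hTT hε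

end Pool.Agent.Results.MP_55694c_an.Stability
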